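import Pool.Agent.helper63.NU.CPDefs

set_option autoImplicit false
set_option linter.all false

/-! Module P13: the volume of `ℂP^n`. -/

open MeasureTheory Filter Topology Set
open scoped ContDiff Manifold Matrix ENNReal ComplexOrder

noncomputable section

namespace Pool.Agent.helper63.NU

variable {n : ℕ}

private lemma P13_deriv {a : ℝ} (ha : 0 < a) (q : ℕ) (y : ℝ) :
    HasDerivAt (fun y : ℝ => -(1 / (2 * ((q : ℝ) + 1))) * ((a + y ^ 2) ^ (q + 1))⁻¹)
      (y * ((a + y ^ 2) ^ (q + 2))⁻¹) y := by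
  have hpos : 0 < a + y ^ 2 := by positivity
  have h1 : HasDerivAt (fun y : ℝ => a + y ^ 2) (2 * y) y := by
    have := (hasDerivAt_pow 2 y).const_add a
    simpa using this
  have h2 := (h1.pow (q + 1)).inv (pow_ne_zero _ hpos.ne')
  have h3 := h2.const_mul (-(1 / (2 * ((q : ℝ) + 1))))
  refine h3.congr_deriv ?_
  have hq : ((q : ℝ) + 1) ≠ 0 := by positivity
  have hne : a + y ^ 2 ≠ 0 := hpos.ne'
  simp only [Pi.pow_apply]
  push_cast
  field_simp
  try ring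

private lemma P13_lim {a : ℝ} (ha : 0 < a) (q : ℕ) :
    Tendsto (fun y : ℝ => -(1 / (2 * ((q : ℝ) + 1))) * ((a + y ^ 2) ^ (q + 1))⁻¹) atTop
      (𝓝 0) := by
  have h1 : Tendsto (fun y : ℝ => a + y ^ 2) atTop atTop :=
    tendsto_atTop_add_const_left _ _ (tendsto_pow_atTop two_ne_zero)
  have h2 : Tendsto (fun y : ℝ => (a + y ^ 2) ^ (q + 1)) atTop atTop :=
    (tendsto_pow_atTop (Nat.succ_ne_zero q)).comp h1
  have h3 := h2.inv_tendsto_atTop.const_mul (-(1 / (2 * ((q : ℝ) + 1))))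
  simpa using h3

private lemma P13_intOn {a : ℝ} (ha : 0 < a) (q : ℕ) :
    IntegrableOn (fun y : ℝ => y * ((a + y ^ 2) ^ (q + 2))⁻¹) (Ioi 0) :=
  integrableOn_Ioi_deriv_of_nonneg' (fun y _ => P13_deriv ha q y)
    (fun y hy => mul_nonneg (le_of_lt hy) (by positivity)) (P13_lim ha q)

private lemma P13_int {a : ℝ} (ha : 0 < a) (q : ℕ) :
    ∫ y in Ioi (0 : ℝ), y * ((a + y ^ 2) ^ (q + 2))⁻¹ =
      1 / (2 * ((q : ℝ) + 1)) * (a ^ (q + 1))⁻¹ := by
  rw [integral_Ioi_of_hasDerivAt_of_tendsto' (fun y _ => P13_deriv ha q y) (P13_intOn ha q)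
    (P13_lim ha q)]
  simp

private lemma P13_one {a : ℝ} (ha : 0 < a) (q : ℕ) :
    ∫⁻ w : ℂ, ENNReal.ofReal (((a + ‖w‖ ^ 2) ^ (q + 2))⁻¹) =
      ENNReal.ofReal (Real.pi / ((q : ℝ) + 1) * (a ^ (q + 1))⁻¹) := by
  have hint : Integrable (fun w : ℂ => ((a + ‖w‖ ^ 2) ^ (q + 2))⁻¹) := by
    have := (integrable_fun_norm_addHaar (E := ℂ) (F := ℝ) volume
      (f := fun y => ((a + y ^ 2) ^ (q + 2))⁻¹)).2 (by
        simpa [Complex.finrank_real_complex] using P13_intOn ha q)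
    exact this
  rw [← ofReal_integral_eq_lintegral_ofReal hint (Eventually.of_forall fun w => by positivity)]
  congr 1
  have h1 := integral_fun_norm_addHaar (E := ℂ) (F := ℝ) volume
    (fun y => ((a + y ^ 2) ^ (q + 2))⁻¹)
  rw [h1]
  simp only [Complex.finrank_real_complex, Nat.add_one_sub_one, pow_one, smul_eq_mul, nsmul_eq_mul]
  rw [P13_int ha q]
  have h2 : (volume : Measure ℂ).real (Metric.ball 0 1) = Real.pi := by
    rw [Measure.real, Complex.volume_ball]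
    simp
  rw [h2]
  have hq : ((q : ℝ) + 1) ≠ 0 := by positivity
  push_cast
  field_simp

private lemma P13_ind (n : ℕ) : ∀ (r : ℕ) (a : ℝ), 0 < a →
    ∫⁻ y : Fin n → ℂ, ENNReal.ofReal (((a + ∑ j, ‖y j‖ ^ 2) ^ (n + r + 1))⁻¹) =
      ENNReal.ofReal (Real.pi ^ n * r.factorial / (n + r).factorial * (a ^ (r + 1))⁻¹) := by
  induction n with
  | zero =>
    intro r a ha
    rw [Measure.volume_pi_eq_dirac (default : Fin 0 → ℂ), lintegral_dirac]
    congr 1
    have : ((r.factorial : ℕ) : ℝ) ≠ 0 := by exact_mod_cast r.factorial_ne_zero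
    simp [this]
  | succ n ih =>
    intro r a ha
    have e := (volume_preserving_piFinSuccAbove (fun _ : Fin (n + 1) => ℂ) 0).symm
    rw [← e.lintegral_comp_emb (MeasurableEquiv.measurableEmbedding _)]
    have h1 : ∀ p : ℂ × (Fin n → ℂ),
        ENNReal.ofReal (((a + ∑ j, ‖(MeasurableEquiv.piFinSuccAbove
          (fun _ : Fin (n + 1) => ℂ) 0).symm p j‖ ^ 2) ^ (n + 1 + r + 1))⁻¹) =
        ENNReal.ofReal ((((a + ‖p.1‖ ^ 2) + ∑ j, ‖p.2 j‖ ^ 2) ^ (n + (r + 1) + 1))⁻¹) := by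
      intro p
      have e1 : a + ∑ j, ‖(MeasurableEquiv.piFinSuccAbove
          (fun _ : Fin (n + 1) => ℂ) 0).symm p j‖ ^ 2 = (a + ‖p.1‖ ^ 2) + ∑ j, ‖p.2 j‖ ^ 2 := by
        rw [Fin.sum_univ_succ]
        simp only [MeasurableEquiv.piFinSuccAbove_symm_apply, Fin.insertNthEquiv,
          Fin.insertNth_zero, Equiv.coe_fn_mk, Fin.cons_zero, Fin.cons_succ, cast_eq]
        rw [← add_assoc]
      rw [e1, show n + 1 + r + 1 = n + (r + 1) + 1 by ring]
    simp_rw [h1]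
    rw [Measure.volume_eq_prod, lintegral_prod _ (by
      refine Measurable.aemeasurable ?_
      fun_prop)]
    have h2 : ∀ w : ℂ, ∫⁻ y : Fin n → ℂ,
        ENNReal.ofReal ((((a + ‖(w, y).1‖ ^ 2) + ∑ j, ‖(w, y).2 j‖ ^ 2) ^ (n + (r + 1) + 1))⁻¹) =
        ENNReal.ofReal (Real.pi ^ n * (r + 1).factorial / (n + (r + 1)).factorial) *
          ENNReal.ofReal (((a + ‖w‖ ^ 2) ^ (r + 2))⁻¹) := by
      intro w
      rw [← ENNReal.ofReal_mul (by positivity)]
      exact ih (r + 1) (a + ‖w‖ ^ 2) (by positivity)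
    simp_rw [h2]
    rw [lintegral_const_mul _ (by fun_prop), P13_one ha r, ← ENNReal.ofReal_mul (by positivity)]
    congr 1
    rw [show n + (r + 1) = n + 1 + r by ring, Nat.factorial_succ r]
    have hr : ((r : ℝ) + 1) ≠ 0 := by positivity
    have hn : (((n + 1 + r).factorial : ℕ) : ℝ) ≠ 0 := by
      exact_mod_cast (n + 1 + r).factorial_ne_zero
    push_cast
    field_simp
    try ring

/-- `∫_{ℂ^n} (1 + |y|²)^{-(n+1)} dy = π^n/n!` (induction: `∫_ℂ (a + |w|²)^{-(n+1)} dw = (π/n) a^{-n}`,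
or the layer cake formula and `Complex.volume_sum_rpow_lt`) -/
theorem dvFS_univ : dvFS n Set.univ = ENNReal.ofReal (Real.pi ^ n / n.factorial) := by
  have hc : Continuous ((CP.chart (n := n) 0).symm : E n → CP n) := by
    rw [← continuousOn_univ]
    exact (CP.chart (n := n) 0).continuousOn_invFun
  unfold dvFS
  rw [Measure.map_apply hc.measurable MeasurableSet.univ, preimage_univ,
    withDensity_apply _ MeasurableSet.univ, Measure.restrict_univ]
  have h1 := P13_ind n 0 1 one_pos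
  have h2 : ∀ y : E n, ENNReal.ofReal ((1 + ∑ j, ‖y j‖ ^ 2) ^ (-((n : ℝ) + 1))) =
      ENNReal.ofReal (((1 + ∑ j, ‖y j‖ ^ 2) ^ (n + 0 + 1))⁻¹) := by
    intro y
    have hpos : 0 ≤ 1 + ∑ j, ‖y j‖ ^ 2 := by positivity
    rw [Real.rpow_neg hpos]
    congr 2
    rw [← Real.rpow_natCast]
    congr 1
    push_cast
    ring
  calc ∫⁻ y : E n, ENNReal.ofReal ((1 + ∑ j, ‖y j‖ ^ 2) ^ (-((n : ℝ) + 1)))
      = ∫⁻ y : E n, ENNReal.ofReal (((1 + ∑ j, ‖y j‖ ^ 2) ^ (n + 0 + 1))⁻¹) := by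
        simp_rw [h2]
    _ = _ := h1
    _ = ENNReal.ofReal (Real.pi ^ n / n.factorial) := by
        congr 1
        simp

end Pool.Agent.helper63.NU
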